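import Pool.Agent.Y552.CT.Stm4

/-!
# Decomposition by the primitive idempotents (project CT3, job 9927)
-/

set_option autoImplicit false

namespace Pool.Agent.Y931.CT

open Pool.Agent.Y552.CT

universe u v

section

variable {Γ : Type u} [Group Γ] {W : Type v} [AddCommGroup W] (ρ : Γ →* AddMonoid.End W)

/-- conjugation -/
def cj (g : Γ) (x : AddMonoid.End W) : AddMonoid.End W := ρ g * x * ρ g⁻¹

lemma rr (g : Γ) : ρ g * ρ g⁻¹ = 1 := by rw [← map_mul, mul_inv_cancel, map_one]

lemma rr' (g : Γ) : ρ g⁻¹ * ρ g = 1 := by rw [← map_mul, inv_mul_cancel, map_one]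

lemma cj_mul (g : Γ) (x y : AddMonoid.End W) : cj ρ g (x * y) = cj ρ g x * cj ρ g y := by
  unfold cj
  calc ρ g * (x * y) * ρ g⁻¹ = ρ g * x * 1 * y * ρ g⁻¹ := by simp only [mul_assoc, one_mul]
    _ = ρ g * x * (ρ g⁻¹ * ρ g) * y * ρ g⁻¹ := by rw [rr']
    _ = _ := by simp only [mul_assoc]

lemma cj_one' (g : Γ) : cj ρ g 1 = 1 := by
  unfold cj; rw [mul_one, rr]

lemma cj_zero (g : Γ) : cj ρ g 0 = 0 := by
  unfold cj; rw [mul_zero, zero_mul]

lemma cj_one (x : AddMonoid.End W) : cj ρ 1 x = x := by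
  unfold cj; rw [inv_one, map_one, one_mul, mul_one]

lemma cj_cj (g h : Γ) (x : AddMonoid.End W) : cj ρ g (cj ρ h x) = cj ρ (g * h) x := by
  unfold cj; rw [mul_inv_rev, map_mul, map_mul]; simp only [mul_assoc]

lemma cj_inv (g : Γ) (x : AddMonoid.End W) : cj ρ g⁻¹ (cj ρ g x) = x := by
  rw [cj_cj, inv_mul_cancel, cj_one]

lemma cj_inv' (g : Γ) (x : AddMonoid.End W) : cj ρ g (cj ρ g⁻¹ x) = x := by
  rw [cj_cj, mul_inv_cancel, cj_one]

lemma cj_pow (g : Γ) (x : AddMonoid.End W) (n : ℕ) : cj ρ g (x ^ n) = (cj ρ g x) ^ n := by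
  induction n with
  | zero => rw [pow_zero, pow_zero, cj_one']
  | succ n ih => rw [pow_succ, pow_succ, cj_mul, ih]

lemma swap (g : Γ) (y : AddMonoid.End W) : ρ g * cj ρ g⁻¹ y = y * ρ g := by
  unfold cj; rw [inv_inv, ← mul_assoc, ← mul_assoc, rr, one_mul]

lemma swap' (g : Γ) (y : AddMonoid.End W) : cj ρ g y * ρ g = ρ g * y := by
  unfold cj; rw [mul_assoc, rr', mul_one]

lemma cj_mem {B : Subgroup Γ} (hB : B.Normal) (g : Γ) {x : AddMonoid.End W}
    (hx : x ∈ Rg ρ B) : cj ρ g x ∈ Rg ρ B := by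
  unfold Rg at hx ⊢
  induction hx using Subring.closure_induction with
  | mem x hx =>
    obtain ⟨b, hb, rfl⟩ := hx
    refine Subring.subset_closure ⟨g * b * g⁻¹, hB.conj_mem b hb g, ?_⟩
    rw [map_mul, map_mul]; rfl
  | zero => rw [cj_zero]; exact zero_mem _
  | one => rw [cj_one']; exact one_mem _
  | add x y _ _ h1 h2 =>
    have : cj ρ g (x + y) = cj ρ g x + cj ρ g y := by unfold cj; rw [mul_add, add_mul]
    rw [this]; exact add_mem h1 h2
  | neg x _ h =>
    have : cj ρ g (-x) = - cj ρ g x := by unfold cj; rw [mul_neg, neg_mul]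
    rw [this]; exact neg_mem h
  | mul x y _ _ h1 h2 => rw [cj_mul]; exact mul_mem h1 h2

lemma rg_comm {B : Subgroup Γ} (hc : Comm B) :
    ∀ x ∈ Rg ρ B, ∀ y ∈ Rg ρ B, x * y = y * x := by
  intro x hx y hy
  unfold Rg at hx hy
  letI := Subring.closureCommRingOfComm (s := ρ '' (B : Set Γ)) (by
    rintro _ ⟨a, ha, rfl⟩ _ ⟨b, hb, rfl⟩
    rw [← map_mul, ← map_mul, hc a ha b hb])
  exact congrArg Subtype.val (mul_comm (⟨x, hx⟩ : Subring.closure (ρ '' (B : Set Γ))) ⟨y, hy⟩)

end

section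

variable {W : Type v} [AddCommGroup W]

lemma kill [Nontrivial W] (s : Finset (AddMonoid.End W)) :
    (∀ x ∈ s, IsNilpotent x) → (∀ x ∈ s, ∀ y ∈ s, x * y = y * x) →
      ∃ w : W, w ≠ 0 ∧ ∀ x ∈ s, x w = 0 := by
  classical
  induction s using Finset.induction_on with
  | empty =>
    intro _ _
    obtain ⟨w, hw⟩ := exists_ne (0 : W)
    exact ⟨w, hw, by simp⟩
  | insert x s hx ih =>
    intro hs hc
    obtain ⟨w, hw, h⟩ := ih (fun y hy => hs y (Finset.mem_insert_of_mem hy))
      (fun y hy z hz => hc y (Finset.mem_insert_of_mem hy) z (Finset.mem_insert_of_mem hz))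
    obtain ⟨n, hn⟩ := hs x (Finset.mem_insert_self x s)
    have hex : ∃ n : ℕ, (x ^ n) w = 0 := ⟨n, by rw [hn]; rfl⟩
    obtain ⟨k, hk⟩ : ∃ k, k = Nat.find hex := ⟨_, rfl⟩
    have hsp : (x ^ k) w = 0 := by rw [hk]; exact Nat.find_spec hex
    have hk0 : k ≠ 0 := by
      intro h0
      rw [h0, pow_zero] at hsp
      exact hw hsp
    refine ⟨(x ^ (k - 1)) w, Nat.find_min hex (by omega), ?_⟩
    intro y hy
    rcases Finset.mem_insert.1 hy with hy' | hy'
    · have h1 : (x * x ^ (k - 1)) w = 0 := by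
        rw [← pow_succ', show k - 1 + 1 = k by omega]; exact hsp
      rw [hy']
      exact h1
    · have h2 : Commute y (x ^ (k - 1)) :=
        Commute.pow_right (hc y (Finset.mem_insert_of_mem hy') x (Finset.mem_insert_self x s)) _
      have h3 : (y * x ^ (k - 1)) w = (x ^ (k - 1) * y) w := by rw [h2.eq]
      have h4 : (x ^ (k - 1) * y) w = (x ^ (k - 1)) (y w) := rfl
      have h5 : y ((x ^ (k - 1)) w) = (y * x ^ (k - 1)) w := rfl
      rw [h5, h3, h4, h y hy', map_zero]

lemma pow_idem {M : Type*} [Monoid M] [Finite M] (x : M) : ∃ n, 0 < n ∧ x ^ n * x ^ n = x ^ n := by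
  obtain ⟨a, b, hab, h⟩ := Finite.exists_ne_map_eq_of_infinite (fun n : ℕ => x ^ n)
  wlog hlt : a < b generalizing a b
  · exact this b a hab.symm h.symm (lt_of_le_of_ne (not_lt.1 hlt) hab.symm)
  have h : x ^ a = x ^ b := h
  obtain ⟨p, hp⟩ : ∃ p, b = a + p := ⟨b - a, by omega⟩
  have hp0 : 0 < p := by omega
  have h1 : ∀ m, a ≤ m → x ^ (m + p) = x ^ m := by
    intro m hm
    have e1 : m + p = (m - a) + (a + p) := by omega
    have e2 : m = (m - a) + a := by omega
    rw [e1, pow_add, ← hp, ← h, ← pow_add, ← e2]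
  have h2 : ∀ k m, a ≤ m → x ^ (m + k * p) = x ^ m := by
    intro k
    induction k with
    | zero => intro m _; rw [zero_mul, add_zero]
    | succ k ih =>
      intro m hm
      rw [Nat.succ_mul, ← add_assoc, h1 _ (by omega), ih m hm]
  refine ⟨(a + 1) * p, Nat.mul_pos (by omega) hp0, ?_⟩
  rw [← pow_add]
  refine h2 (a + 1) _ ?_
  nlinarith

/-- fixed vectors -/
def fx (e : AddMonoid.End W) : AddSubgroup W where
  carrier := {w | e w = w}
  zero_mem' := map_zero e
  add_mem' := by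
    intro a b ha hb
    have ha' : e a = a := ha
    have hb' : e b = b := hb
    show e (a + b) = a + b
    rw [map_add, ha', hb']
  neg_mem' := by
    intro a ha
    have ha' : e a = a := ha
    show e (-a) = -a
    rw [map_neg, ha']

lemma mem_fx {e : AddMonoid.End W} {w : W} : w ∈ fx e ↔ e w = w := Iff.rfl

/-- primitive idempotents -/
def Prm (R : Subring (AddMonoid.End W)) (e : AddMonoid.End W) : Prop :=
  e ∈ R ∧ e * e = e ∧ e ≠ 0 ∧ ∀ f ∈ R, f * f = f → f * e = f → f = 0 ∨ f = e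

lemma exists_prm [Finite W] {R : Subring (AddMonoid.End W)}
    (hR : ∀ x ∈ R, ∀ y ∈ R, x * y = y * x) {f : AddMonoid.End W} (hf : f ∈ R) (hff : f * f = f)
    (h0 : f ≠ 0) : ∃ e, Prm R e ∧ e * f = e := by
  obtain ⟨e, he, hmin⟩ := WellFounded.has_min
    (measure (fun e : AddMonoid.End W => Nat.card (fx e))).wf
    {e | e ∈ R ∧ e * e = e ∧ e ≠ 0 ∧ e * f = e} ⟨f, hf, hff, h0, hff⟩
  obtain ⟨h1, h2, h3, h4⟩ := he
  refine ⟨e, ⟨h1, h2, h3, ?_⟩, h4⟩
  intro h hh hhh hhe
  by_cases hz : h = 0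
  · exact Or.inl hz
  right
  have h5 := hmin h ⟨hh, hhh, hz, by rw [← hhe, mul_assoc, h4]⟩
  have h6 : ¬ Nat.card (fx h) < Nat.card (fx e) := h5
  have h7 : fx h ≤ fx e := by
    intro w hw
    rw [mem_fx] at hw ⊢
    have h8 : e (h w) = h w := by
      have h9 : (e * h) w = h w := by rw [hR e h1 h hh, hhe]
      exact h9
    rw [hw] at h8
    exact h8
  have h10 : fx h = fx e := AddSubgroup.eq_of_le_of_card_ge h7 (not_lt.1 h6)
  have h11 : h * e = e := by
    ext w
    have h12 : e w ∈ fx e := by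
      rw [mem_fx]
      have : (e * e) w = e w := by rw [h2]
      exact this
    rw [← h10] at h12
    exact h12
  rw [← hhe, h11]

lemma prm_orth {R : Subring (AddMonoid.End W)} (hR : ∀ x ∈ R, ∀ y ∈ R, x * y = y * x)
    {e f : AddMonoid.End W} (he : Prm R e) (hf : Prm R f) (hne : e ≠ f) : e * f = 0 := by
  obtain ⟨a1, a2, a3, a4⟩ := he
  obtain ⟨b1, b2, b3, b4⟩ := hf
  have h1 : (e * f) * (e * f) = e * f := by
    calc (e * f) * (e * f) = e * (f * e) * f := by simp only [mul_assoc]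
      _ = e * (e * f) * f := by rw [hR f b1 e a1]
      _ = (e * e) * (f * f) := by simp only [mul_assoc]
      _ = e * f := by rw [a2, b2]
  have h2 : (e * f) * e = e * f := by
    rw [mul_assoc, hR f b1 e a1, ← mul_assoc, a2]
  have h3 : (e * f) * f = e * f := by rw [mul_assoc, b2]
  rcases a4 _ (mul_mem a1 b1) h1 h2 with h | h
  · exact h
  rcases b4 _ (mul_mem a1 b1) h1 h3 with h' | h'
  · exact h'
  · exact absurd (h.symm.trans h') hne

end

section

variable {Γ : Type u} [Group Γ] {W : Type v} [AddCommGroup W] (ρ : Γ →* AddMonoid.End W)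

lemma cj_prm {B : Subgroup Γ} (hB : B.Normal) (g : Γ) {e : AddMonoid.End W}
    (he : Prm (Rg ρ B) e) : Prm (Rg ρ B) (cj ρ g e) := by
  obtain ⟨a1, a2, a3, a4⟩ := he
  refine ⟨cj_mem ρ hB g a1, ?_, ?_, ?_⟩
  · rw [← cj_mul, a2]
  · intro h
    apply a3
    rw [← cj_inv ρ g e, h, cj_zero]
  · intro f hf hff hfe
    have h1 := a4 (cj ρ g⁻¹ f) (cj_mem ρ hB _ hf) (by rw [← cj_mul, hff]) (by
      have : cj ρ g⁻¹ f * e = cj ρ g⁻¹ (f * cj ρ g e) := by rw [cj_mul, cj_inv]
      rw [this, hfe])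
    rcases h1 with h | h
    · left; rw [← cj_inv' ρ g f, h, cj_zero]
    · right; rw [← cj_inv' ρ g f, h]

/-- the action on the primitive idempotents -/
def act {B : Subgroup Γ} (hB : B.Normal) :
    MulAction Γ {e : AddMonoid.End W // Prm (Rg ρ B) e} where
  smul g e := ⟨cj ρ g e.1, cj_prm ρ hB g e.2⟩
  one_smul e := Subtype.ext (cj_one ρ e.1)
  mul_smul g h e := Subtype.ext (cj_cj ρ g h e.1).symm

variable [Finite W] [Nontrivial W]

lemma reduced (hirr : Irr ρ) {B : Subgroup Γ} (hB : B.Normal) (hc : Comm B)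
    {x : AddMonoid.End W} (hx : x ∈ Rg ρ B) (hn : IsNilpotent x) : x = 0 := by
  classical
  haveI : Finite (AddMonoid.End W) :=
    Finite.of_injective (fun f : AddMonoid.End W => (f : W → W)) DFunLike.coe_injective
  let K : AddSubgroup W :=
    { carrier := {w | ∀ y ∈ Rg ρ B, IsNilpotent y → y w = 0}
      zero_mem' := fun y _ _ => map_zero y
      add_mem' := by
        intro a b ha hb y hy hyn
        rw [map_add, ha y hy hyn, hb y hy hyn, add_zero]
      neg_mem' := by
        intro a ha y hy hyn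
        rw [map_neg, ha y hy hyn, neg_zero] }
  have hK : ∀ w, w ∈ K ↔ ∀ y ∈ Rg ρ B, IsNilpotent y → y w = 0 := fun _ => Iff.rfl
  rcases hirr K (by
    intro g w hw
    rw [hK] at hw ⊢
    intro y hy hyn
    have h1 : y (ρ g w) = (ρ g * cj ρ g⁻¹ y) w := by rw [swap]; rfl
    have h2 : (cj ρ g⁻¹ y) w = 0 := by
      refine hw _ (cj_mem ρ hB _ hy) ?_
      obtain ⟨n, hn⟩ := hyn
      exact ⟨n, by rw [← cj_pow, hn, cj_zero]⟩
    rw [h1]
    show ρ g ((cj ρ g⁻¹ y) w) = 0
    rw [h2, map_zero]) with h | h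
  · exfalso
    have hfin : {y | y ∈ Rg ρ B ∧ IsNilpotent y}.Finite := Set.toFinite _
    obtain ⟨w, hw, hw2⟩ := kill hfin.toFinset
      (fun y hy => ((Set.Finite.mem_toFinset _).1 hy).2)
      (fun y hy z hz => rg_comm ρ hc y ((Set.Finite.mem_toFinset _).1 hy).1 z
        ((Set.Finite.mem_toFinset _).1 hz).1)
    have h1 : w ∈ K := (hK w).2 fun y hy hyn =>
      hw2 y ((Set.Finite.mem_toFinset _).2 ⟨hy, hyn⟩)
    rw [h, AddSubgroup.mem_bot] at h1
    exact hw h1
  · ext w
    have h1 : w ∈ K := by rw [h]; exact AddSubgroup.mem_top w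
    exact (hK w).1 h1 x hx hn

theorem clif_main [Finite Γ] (hirr : Irr ρ) (B : Subgroup Γ) (hB : B.Normal) (hc : Comm B)
    (hnd : ¬ ∀ x ∈ Rg ρ B, ∀ y ∈ Rg ρ B, x * y = 0 → x = 0 ∨ y = 0) :
    ∃ (ι : Type v) (_ : Finite ι) (_ : MulAction Γ ι) (U : ι → AddSubgroup W),
      2 ≤ Nat.card ι ∧ MulAction.IsPretransitive Γ ι ∧
      (∀ (g : Γ) (i : ι), ∀ w ∈ U i, ρ g w ∈ U (g • i)) ∧ (⨆ i, U i) = ⊤ ∧
      (∏ᶠ i, Nat.card (U i)) = Nat.card W ∧
      ∀ (i : ι) (V : AddSubgroup W), V ≤ U i →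
        (∀ g : Γ, g • i = i → ∀ w ∈ V, ρ g w ∈ V) → V = ⊥ ∨ V = U i := by
  classical
  haveI : Finite (AddMonoid.End W) :=
    Finite.of_injective (fun f : AddMonoid.End W => (f : W → W)) DFunLike.coe_injective
  have hR := rg_comm ρ hc
  -- a non-trivial idempotent
  obtain ⟨f, hf, hff, hf0, hf1⟩ : ∃ f ∈ Rg ρ B, f * f = f ∧ f ≠ 0 ∧ f ≠ 1 := by
    push Not at hnd
    obtain ⟨x, hx, y, hy, hxy, hx0, hy0⟩ := hnd
    obtain ⟨n, hn, hnn⟩ := pow_idem x
    refine ⟨x ^ n, pow_mem hx n, hnn, ?_, ?_⟩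
    · intro h
      exact hx0 (reduced ρ hirr hB hc hx ⟨n, h⟩)
    · intro h
      apply hy0
      have h1 : x ^ n * y = 0 := by
        rw [show n = n - 1 + 1 by omega, pow_succ, mul_assoc, hxy, mul_zero]
      rw [h, one_mul] at h1
      exact h1
  let ι : Type v := {e : AddMonoid.End W // Prm (Rg ρ B) e}
  letI hact : MulAction Γ ι := act ρ hB
  have hsm : ∀ (g : Γ) (i : ι), (g • i).1 = cj ρ g i.1 := fun g i => rfl
  haveI hfin : Finite ι := Subtype.finite
  haveI : Fintype ι := Fintype.ofFinite ι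
  have horth : ∀ i j : ι, i ≠ j → i.1 * j.1 = 0 := fun i j hij =>
    prm_orth hR i.2 j.2 fun h => hij (Subtype.ext h)
  have hidem : ∀ i : ι, i.1 * i.1 = i.1 := fun i => i.2.2.1
  -- sum of all
  have hsum : ∑ i : ι, i.1 = 1 := by
    by_contra hne
    set s : AddMonoid.End W := ∑ i : ι, i.1 with hs
    have hsR : s ∈ Rg ρ B := sum_mem fun i _ => i.2.1
    have his : ∀ i : ι, i.1 * s = i.1 := by
      intro i
      rw [hs, Finset.mul_sum, Finset.sum_eq_single i (fun j _ hj => horth i j (Ne.symm hj))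
        (fun h => absurd (Finset.mem_univ i) h), hidem]
    have hss : s * s = s := by
      conv_lhs => rw [hs]
      rw [Finset.sum_mul]
      exact (Finset.sum_congr rfl fun i _ => his i)
    have h1 : (1 - s) * (1 - s) = 1 - s := by
      rw [mul_sub, mul_one, sub_mul, one_mul, hss, sub_self, sub_zero]
    obtain ⟨e, he, hee⟩ := exists_prm hR (sub_mem (one_mem _) hsR) h1
      (fun h => hne (sub_eq_zero.1 h).symm)
    have h2 : e * s = e := his ⟨e, he⟩
    rw [mul_sub, mul_one, h2, sub_self] at hee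
    exact he.2.2.1 hee.symm
  have hdec : ∀ w : W, w = ∑ i : ι, i.1 w := by
    intro w
    have h1 : (1 : AddMonoid.End W) w = (∑ i : ι, i.1) w := by rw [hsum]
    have h2 : (∑ i : ι, i.1) w = ∑ i : ι, i.1 w := by
      have : ∀ t : Finset ι, (∑ i ∈ t, i.1) w = ∑ i ∈ t, i.1 w := by
        intro t
        induction t using Finset.induction_on with
        | empty => simp
        | insert a t ha ih => rw [Finset.sum_insert ha, Finset.sum_insert ha, ← ih]; rfl
      exact this _
    rw [← h2, ← h1]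
    rfl
  have hUi : ∀ (i : ι) (w : W), i.1 w ∈ fx i.1 := by
    intro i w
    rw [mem_fx]
    have : (i.1 * i.1) w = i.1 w := by rw [hidem]
    exact this
  refine ⟨ι, hfin, hact, fun i => fx i.1, ?_, ?_, ?_, ?_, ?_, ?_⟩
  · -- at least two
    obtain ⟨e, he, hee⟩ := exists_prm hR hf hff hf0
    have h1 : (1 - f) * (1 - f) = 1 - f := by
      rw [mul_sub, mul_one, sub_mul, one_mul, hff, sub_self, sub_zero]
    obtain ⟨e', he', hee'⟩ := exists_prm hR (sub_mem (one_mem _) hf) h1
      (fun h => hf1 (sub_eq_zero.1 h).symm)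
    have hne : (⟨e, he⟩ : ι) ≠ ⟨e', he'⟩ := by
      intro h
      have h2 : e = e' := congrArg Subtype.val h
      rw [← h2, mul_sub, mul_one, hee, sub_self] at hee'
      exact he.2.2.1 hee'.symm
    haveI : Nontrivial ι := ⟨⟨_, _, hne⟩⟩
    exact Finite.one_lt_card
  · -- transitive
    refine ⟨fun i j => ?_⟩
    by_contra hcon
    push Not at hcon
    let K : AddSubgroup W :=
      { carrier := {w | ∀ g : Γ, (cj ρ g i.1) w = 0}
        zero_mem' := fun g => map_zero _
        add_mem' := by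
          intro a b ha hb g
          rw [map_add, ha g, hb g, add_zero]
        neg_mem' := by
          intro a ha g
          rw [map_neg, ha g, neg_zero] }
    have hK : ∀ w, w ∈ K ↔ ∀ g : Γ, (cj ρ g i.1) w = 0 := fun _ => Iff.rfl
    rcases hirr K (by
      intro g w hw
      rw [hK] at hw ⊢
      intro g'
      have h1 : (cj ρ g' i.1) (ρ g w) = (ρ g * cj ρ g⁻¹ (cj ρ g' i.1)) w := by rw [swap]; rfl
      rw [h1]
      show ρ g ((cj ρ g⁻¹ (cj ρ g' i.1)) w) = 0
      rw [cj_cj, hw, map_zero]) with h | h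
    · apply j.2.2.2.1
      ext w
      have h1 : j.1 w ∈ K := by
        rw [hK]
        intro g
        have h2 : (g • i).1 * j.1 = 0 := horth _ _ (hcon g)
        rw [hsm] at h2
        have h3 : (cj ρ g i.1 * j.1) w = 0 := by rw [h2]; rfl
        exact h3
      rw [h, AddSubgroup.mem_bot] at h1
      exact h1
    · apply i.2.2.2.1
      ext w
      have h1 : w ∈ K := by rw [h]; exact AddSubgroup.mem_top w
      have h2 := (hK w).1 h1 1
      rw [cj_one] at h2
      exact h2
  · -- action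
    intro g i w hw
    have hw' : i.1 w = w := hw
    show (g • i).1 (ρ g w) = ρ g w
    rw [hsm]
    have h1 : (cj ρ g i.1 * ρ g) w = (ρ g * i.1) w := by rw [swap']
    have h2 : (cj ρ g i.1) (ρ g w) = ρ g (i.1 w) := h1
    rw [h2, hw']
  · -- sup
    rw [eq_top_iff]
    intro w _
    rw [hdec w]
    exact sum_mem fun i _ => (le_iSup (fun i : ι => fx i.1) i) (hUi i w)
  · -- cardinality
    rw [finprod_eq_prod_of_fintype, ← Nat.card_pi]
    symm
    refine Nat.card_congr (Equiv.ofBijective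
      (fun (w : W) (i : ι) => (⟨i.1 w, hUi i w⟩ : fx i.1)) ⟨?_, ?_⟩)
    · intro w w' h
      rw [hdec w, hdec w']
      refine Finset.sum_congr rfl fun i _ => ?_
      exact congrArg Subtype.val (congrFun h i)
    · intro u
      refine ⟨∑ j : ι, (u j : W), ?_⟩
      funext i
      apply Subtype.ext
      show i.1 (∑ j : ι, (u j : W)) = u i
      rw [map_sum, Finset.sum_eq_single i]
      · exact (u i).2
      · intro j _ hj
        have h1 : j.1 (u j : W) = u j := (u j).2
        rw [← h1]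
        have h2 : (i.1 * j.1) (u j : W) = 0 := by rw [horth i j (Ne.symm hj)]; rfl
        exact h2
      · intro h
        exact absurd (Finset.mem_univ i) h
  · -- irreducibility under the stabilizer
    intro i V hV hst
    let K : AddSubgroup W :=
      { carrier := {w | ∀ g : Γ, i.1 (ρ g w) ∈ V}
        zero_mem' := fun g => by
          show i.1 (ρ g 0) ∈ V
          rw [map_zero, map_zero]; exact V.zero_mem
        add_mem' := by
          intro a b ha hb g
          show i.1 (ρ g (a + b)) ∈ V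
          rw [map_add, map_add]; exact V.add_mem (ha g) (hb g)
        neg_mem' := by
          intro a ha g
          show i.1 (ρ g (-a)) ∈ V
          rw [map_neg, map_neg]; exact V.neg_mem (ha g) }
    have hK : ∀ w, w ∈ K ↔ ∀ g : Γ, i.1 (ρ g w) ∈ V := fun _ => Iff.rfl
    rcases hirr K (by
      intro g w hw
      rw [hK] at hw ⊢
      intro g'
      have h1 : ρ g' (ρ g w) = ρ (g' * g) w := by rw [map_mul]; rfl
      rw [h1]
      exact hw _) with h | h
    · left
      rw [eq_bot_iff, ← h]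
      intro w hw
      rw [hK]
      intro g
      have hwi : i.1 w = w := hV hw
      by_cases hg : g • i = i
      · have h1 := hst g hg w hw
        have h2 : i.1 (ρ g w) = ρ g w := hV h1
        rw [h2]; exact h1
      · have h1 : i.1 * (g • i).1 = 0 := horth _ _ (Ne.symm hg)
        rw [hsm] at h1
        have h2 : (cj ρ g i.1 * ρ g) w = (ρ g * i.1) w := by rw [swap']
        have h3 : (cj ρ g i.1) (ρ g w) = ρ g (i.1 w) := h2
        rw [hwi] at h3
        rw [← h3]
        have h4 : (i.1 * cj ρ g i.1) (ρ g w) = 0 := by rw [h1]; rfl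
        have h5 : i.1 ((cj ρ g i.1) (ρ g w)) = 0 := h4
        rw [h5]; exact V.zero_mem
    · right
      refine le_antisymm hV fun w hw => ?_
      have hw' : i.1 w = w := hw
      have h1 : w ∈ K := by rw [h]; exact AddSubgroup.mem_top w
      have h2 := (hK w).1 h1 1
      rw [map_one] at h2
      have h3 : i.1 ((1 : AddMonoid.End W) w) = i.1 w := rfl
      rw [h3, hw'] at h2
      exact h2

end

theorem clif : S_CLIF.{u, v} := fun _ _ _ _ _ _ _ ρ hirr B hB hc hnd =>
  clif_main ρ hirr B hB hc hnd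

end Pool.Agent.Y931.CT
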